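import Pool.Agent.W401.OC.Dir
import Pool.Agent.W150.OC.Veblen

/-! # Three even subgraphs covering every edge zero or two times give an oriented double cover
of their union (helper401) -/

set_option autoImplicit false

open scoped Classical

namespace Pool.Agent.W401.OC

open SimpleGraph

variable {V : Type} {G : SimpleGraph V}

lemma cnt_add {u v : V} (huv : u ≠ v) (l : List G.Dart) :
    cnt l u v + cnt l v u = (l.map Dart.edge).count s(u, v) := by
  induction l with
  | nil => simp [cnt_nil]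
  | cons a t ih =>
    rw [cnt_cons, cnt_cons, List.map_cons, List.count_cons, ← ih]
    simp only [beq_iff_eq]
    have h1 : (a.edge = s(u, v)) ↔ (a.fst = u ∧ a.snd = v) ∨ (a.fst = v ∧ a.snd = u) := by
      rcases a with ⟨⟨x, y⟩, hxy⟩
      show s(x, y) = s(u, v) ↔ _
      rw [Sym2.eq_iff]
    have h2 : ¬ ((a.fst = u ∧ a.snd = v) ∧ (a.fst = v ∧ a.snd = u)) := by
      rintro ⟨⟨h3, _⟩, h4, _⟩
      exact huv (h3.symm.trans h4)
    by_cases h3 : a.fst = u ∧ a.snd = v
    · have h4 : ¬ (a.fst = v ∧ a.snd = u) := fun h => h2 ⟨h3, h⟩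
      rw [if_pos h3, if_neg h4, if_pos (h1.2 (Or.inl h3))]
      omega
    · by_cases h4 : a.fst = v ∧ a.snd = u
      · rw [if_neg h3, if_pos h4, if_pos (h1.2 (Or.inr h4))]
        omega
      · rw [if_neg h3, if_neg h4, if_neg (fun h => (h1.1 h).elim h3 h4)]
        omega

variable [Fintype V]

/-- antisymmetric and balanced -/
structure Fl (f : V → V → ℤ) : Prop where
  anti : ∀ u v, f v u = - f u v
  bal : ∀ u, ∑ v, f u v = 0

omit G in
lemma Fl.neg {f : V → V → ℤ} (h : Fl f) : Fl (fun u v => - f u v) := by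
  constructor
  · intro u v
    rw [h.anti u v]
  · intro u
    rw [Finset.sum_neg_distrib, h.bal, neg_zero]

/-- an even graph has an Eulerian orientation -/
theorem orient (H : SimpleGraph V) (hev : ∀ v, Even ((H.neighborSet v).ncard)) :
    ∃ f : V → V → ℤ, Fl f ∧ (∀ u v, ¬ H.Adj u v → f u v = 0) ∧
      (∀ u v, H.Adj u v → f u v = 1 ∨ f u v = -1) := by
  obtain ⟨L, hL1, hL2⟩ := Pool.Agent.W150.OC.decomp _ H rfl hev
  clear hL1
  have hadd : ∀ u v : V, u ≠ v → (L.map fun c => cnt c.2.darts u v).sum +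
      (L.map fun c => cnt c.2.darts v u).sum = (L.map fun c => c.2.edges.count s(u, v)).sum := by
    intro u v huv
    rw [← List.sum_map_add]
    congr 1
    apply List.map_congr_left
    intro c _
    exact cnt_add huv _
  refine ⟨fun u v => ((L.map fun c => cnt c.2.darts u v).sum : ℤ) -
    ((L.map fun c => cnt c.2.darts v u).sum : ℤ), ⟨?_, ?_⟩, ?_, ?_⟩
  · intro u v
    ring
  · intro u
    clear hL2 hadd
    induction L with
    | nil => simp
    | cons c t ih =>
      have h1 := walk_bal c.2 u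
      rw [sub_self] at h1
      have h2 : ∀ v, (((((c :: t).map fun c => cnt c.2.darts u v).sum : ℕ) : ℤ) -
          ((((c :: t).map fun c => cnt c.2.darts v u).sum : ℕ) : ℤ)) =
          ((cnt c.2.darts u v : ℤ) - (cnt c.2.darts v u : ℤ)) +
          ((((t.map fun c => cnt c.2.darts u v).sum : ℕ) : ℤ) -
          (((t.map fun c => cnt c.2.darts v u).sum : ℕ) : ℤ)) := by
        intro v
        simp only [List.map_cons, List.sum_cons]
        push_cast
        ring
      rw [Finset.sum_congr rfl (fun v _ => h2 v), Finset.sum_add_distrib, h1, ih]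
      simp
  · intro u v huv
    have h1 : ∀ u v : V, ¬ H.Adj u v → (L.map fun c => cnt c.2.darts u v).sum = 0 := by
      intro u v huv
      rw [List.sum_eq_zero_iff]
      intro x hx
      obtain ⟨c, _, rfl⟩ := List.mem_map.1 hx
      by_contra h0
      obtain ⟨d, _, rfl, rfl⟩ := cnt_pos h0
      exact huv d.adj
    beta_reduce
    rw [h1 u v huv, h1 v u (fun h => huv h.symm)]
    simp
  · intro u v huv
    have h1 := hadd u v huv.ne
    rw [hL2 s(u, v) huv] at h1
    beta_reduce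
    generalize (L.map fun c => cnt c.2.darts u v).sum = a at h1 ⊢
    generalize (L.map fun c => cnt c.2.darts v u).sum = b at h1 ⊢
    omega

/-- admissible local patterns -/
def Pat (a b c : ℤ) : Prop :=
  (a = 0 ∧ b = 0 ∧ c = 0) ∨ (a = 0 ∧ (b = 1 ∨ b = -1) ∧ (c = 1 ∨ c = -1)) ∨
    (b = 0 ∧ (a = 1 ∨ a = -1) ∧ (c = 1 ∨ c = -1)) ∨ (c = 0 ∧ (a = 1 ∨ a = -1) ∧ (b = 1 ∨ b = -1))

lemma half_good {a b c : V → V → ℤ} (ha : Fl a) (hb : Fl b) (hc : Fl c)
    (hp : ∀ u v, Pat (a u v) (b u v) (c u v))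
    (hs : ∀ u v, ¬ (a u v = 0 ∧ b u v = 0 ∧ c u v = 0) → G.Adj u v) :
    Good G (fun u v => (a u v + b u v + c u v) / 2) := by
  have h2 : ∀ u v, 2 * ((a u v + b u v + c u v) / 2) = a u v + b u v + c u v := by
    intro u v
    have := hp u v
    unfold Pat at this
    omega
  constructor
  · intro u v
    have h3 := h2 u v
    have h4 := h2 v u
    have h5 := ha.anti u v
    have h6 := hb.anti u v
    have h7 := hc.anti u v
    show (a v u + b v u + c v u) / 2 = - ((a u v + b u v + c u v) / 2)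
    omega
  · intro u v
    have h3 := h2 u v
    have := hp u v
    unfold Pat at this
    show (a u v + b u v + c u v) / 2 = 0 ∨ (a u v + b u v + c u v) / 2 = 1 ∨
      (a u v + b u v + c u v) / 2 = -1
    omega
  · intro u v h0
    apply hs
    rintro ⟨h3, h4, h5⟩
    apply h0
    show (a u v + b u v + c u v) / 2 = 0
    rw [h3, h4, h5]
    rfl
  · intro u
    have h3 : 2 * ∑ v, (a u v + b u v + c u v) / 2 = 0 := by
      rw [Finset.mul_sum, Finset.sum_congr rfl (fun v _ => h2 u v), Finset.sum_add_distrib,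
        Finset.sum_add_distrib, ha.bal, hb.bal, hc.bal]
      rfl
    show ∑ v, (a u v + b u v + c u v) / 2 = 0
    omega

/-- three even subgraphs, every edge in none or two of them -/
theorem block (A : Fin 3 → SimpleGraph V) (hle : ∀ i, A i ≤ G)
    (hev : ∀ i v, Even (((A i).neighborSet v).ncard))
    (h02 : ∀ u v, (¬ (A 0).Adj u v ∧ ¬ (A 1).Adj u v ∧ ¬ (A 2).Adj u v) ∨
      (¬ (A 0).Adj u v ∧ (A 1).Adj u v ∧ (A 2).Adj u v) ∨
      ((A 0).Adj u v ∧ ¬ (A 1).Adj u v ∧ (A 2).Adj u v) ∨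
      ((A 0).Adj u v ∧ (A 1).Adj u v ∧ ¬ (A 2).Adj u v)) :
    ∃ L : List (Σ v : V, G.Walk v v), (∀ c ∈ L, c.2.IsCycle) ∧
      ∀ u v, (L.map fun c => cnt c.2.darts u v).sum =
        if (A 0).Adj u v ∨ (A 1).Adj u v ∨ (A 2).Adj u v then 1 else 0 := by
  obtain ⟨a, ha, ha0, ha1⟩ := orient (A 0) (hev 0)
  obtain ⟨b, hb, hb0, hb1⟩ := orient (A 1) (hev 1)
  obtain ⟨c, hc, hc0, hc1⟩ := orient (A 2) (hev 2)
  have hpat : ∀ u v, Pat (a u v) (b u v) (c u v) := by
    intro u v
    unfold Pat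
    rcases h02 u v with ⟨h1, h2, h3⟩ | ⟨h1, h2, h3⟩ | ⟨h1, h2, h3⟩ | ⟨h1, h2, h3⟩
    · exact Or.inl ⟨ha0 _ _ h1, hb0 _ _ h2, hc0 _ _ h3⟩
    · exact Or.inr (Or.inl ⟨ha0 _ _ h1, hb1 _ _ h2, hc1 _ _ h3⟩)
    · exact Or.inr (Or.inr (Or.inl ⟨hb0 _ _ h2, ha1 _ _ h1, hc1 _ _ h3⟩))
    · exact Or.inr (Or.inr (Or.inr ⟨hc0 _ _ h3, ha1 _ _ h1, hb1 _ _ h2⟩))
  have hsup : ∀ u v, ¬ (a u v = 0 ∧ b u v = 0 ∧ c u v = 0) → G.Adj u v := by
    intro u v h
    by_contra hG
    exact h ⟨ha0 _ _ (fun h' => hG (hle 0 h')), hb0 _ _ (fun h' => hG (hle 1 h')),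
      hc0 _ _ (fun h' => hG (hle 2 h'))⟩
  have g1 := half_good (G := G) ha hb hc hpat hsup
  have g2 := half_good (G := G) ha hb.neg hc.neg
    (fun u v => by have := hpat u v; unfold Pat at this ⊢; omega)
    (fun u v h => hsup u v (fun h' => h (by omega)))
  have g3 := half_good (G := G) ha.neg hb hc.neg
    (fun u v => by have := hpat u v; unfold Pat at this ⊢; omega)
    (fun u v h => hsup u v (fun h' => h (by omega)))
  have g4 := half_good (G := G) ha.neg hb.neg hc
    (fun u v => by have := hpat u v; unfold Pat at this ⊢; omega)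
    (fun u v h => hsup u v (fun h' => h (by omega)))
  obtain ⟨L1, h11, h12⟩ := decomp_dir _ _ g1 rfl
  obtain ⟨L2, h21, h22⟩ := decomp_dir _ _ g2 rfl
  obtain ⟨L3, h31, h32⟩ := decomp_dir _ _ g3 rfl
  obtain ⟨L4, h41, h42⟩ := decomp_dir _ _ g4 rfl
  refine ⟨L1 ++ L2 ++ L3 ++ L4, ?_, ?_⟩
  · intro d hd
    simp only [List.mem_append] at hd
    rcases hd with ((hd | hd) | hd) | hd
    · exact h11 d hd
    · exact h21 d hd
    · exact h31 d hd
    · exact h41 d hd
  · intro u v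
    simp only [List.map_append, List.sum_append]
    rw [h12 u v, h22 u v, h32 u v, h42 u v]
    have e0 : (A 0).Adj u v ↔ a u v ≠ 0 :=
      ⟨fun h => by rcases ha1 _ _ h with h | h <;> omega, fun h => by by_contra h'; exact h (ha0 _ _ h')⟩
    have e1 : (A 1).Adj u v ↔ b u v ≠ 0 :=
      ⟨fun h => by rcases hb1 _ _ h with h | h <;> omega, fun h => by by_contra h'; exact h (hb0 _ _ h')⟩
    have e2 : (A 2).Adj u v ↔ c u v ≠ 0 :=
      ⟨fun h => by rcases hc1 _ _ h with h | h <;> omega, fun h => by by_contra h'; exact h (hc0 _ _ h')⟩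
    rw [e0, e1, e2]
    have hP := hpat u v
    unfold Pat at hP
    generalize a u v = x at hP ⊢
    generalize b u v = y at hP ⊢
    generalize c u v = z at hP ⊢
    rcases hP with ⟨rfl, rfl, rfl⟩ | ⟨rfl, rfl | rfl, rfl | rfl⟩ | ⟨rfl, rfl | rfl, rfl | rfl⟩ |
      ⟨rfl, rfl | rfl, rfl | rfl⟩ <;> norm_num

end Pool.Agent.W401.OC
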