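import Mathlib

/-! # Balanced antisymmetric integer functions decompose into directed cycles (helper401) -/

set_option autoImplicit false

open scoped Classical

namespace Pool.Agent.W401.OC

open SimpleGraph

variable {V : Type} {G : SimpleGraph V}

/-- number of darts of the list going from `u` to `v` -/
noncomputable def cnt (l : List G.Dart) (u v : V) : ℕ :=
  (l.filter (fun d => decide (d.toProd = (u, v)))).length

lemma cnt_nil (u v : V) : cnt ([] : List G.Dart) u v = 0 := rfl

lemma cnt_cons (d : G.Dart) (l : List G.Dart) (u v : V) :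
    cnt (d :: l) u v = (if d.fst = u ∧ d.snd = v then 1 else 0) + cnt l u v := by
  unfold cnt
  rw [List.filter_cons]
  by_cases h : d.fst = u ∧ d.snd = v
  · have h1 : d.toProd = (u, v) := Prod.ext h.1 h.2
    rw [if_pos (by simpa using h1), if_pos h, List.length_cons]
    omega
  · have h1 : ¬ d.toProd = (u, v) := fun h2 => h ⟨congrArg Prod.fst h2, congrArg Prod.snd h2⟩
    rw [if_neg (by simpa using h1), if_neg h]
    omega

lemma cnt_pos {l : List G.Dart} {u v : V} (h : cnt l u v ≠ 0) :
    ∃ d ∈ l, d.fst = u ∧ d.snd = v := by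
  unfold cnt at h
  obtain ⟨d, hd⟩ := List.exists_mem_of_ne_nil (l.filter (fun d => decide (d.toProd = (u, v))))
    (fun h1 => h (by rw [h1]; rfl))
  rw [List.mem_filter] at hd
  have h2 : d.toProd = (u, v) := by simpa using hd.2
  exact ⟨d, hd.1, congrArg Prod.fst h2, congrArg Prod.snd h2⟩

lemma cnt_le_one {l : List G.Dart} (h : l.Nodup) (u v : V) : cnt l u v ≤ 1 := by
  unfold cnt
  by_contra h1
  push Not at h1
  have h2 : (l.filter (fun d => decide (d.toProd = (u, v)))).Nodup := h.filter _
  have h3 : ∀ d ∈ (l.filter (fun d => decide (d.toProd = (u, v)))), d.toProd = (u, v) := by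
    intro d hd
    rw [List.mem_filter] at hd
    simpa using hd.2
  generalize (l.filter (fun d => decide (d.toProd = (u, v)))) = m at h1 h2 h3
  match m, h1, h2, h3 with
  | [], h1, _, _ => simp at h1
  | [a], h1, _, _ => simp at h1
  | a :: b :: t, _, h2, h3 =>
    have h4 := h3 a (by simp)
    have h5 := h3 b (by simp)
    have h6 : a = b := by
      apply Dart.ext
      rw [h4, h5]
    rw [List.nodup_cons] at h2
    exact h2.1 (by simp [h6])

lemma cnt_one {l : List G.Dart} {d : G.Dart} (hd : d ∈ l) : cnt l d.fst d.snd ≠ 0 := by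
  unfold cnt
  intro h
  rw [List.length_eq_zero_iff, List.filter_eq_nil_iff] at h
  exact h d hd (by simp)

variable [Fintype V]

lemma walk_bal {a b : V} (p : G.Walk a b) (u : V) :
    ∑ v, ((cnt p.darts u v : ℤ) - (cnt p.darts v u : ℤ)) =
      (if u = a then 1 else 0) - (if u = b then 1 else 0) := by
  induction p with
  | nil => simp [cnt_nil]
  | @cons a c b h q ih =>
    rw [Walk.darts_cons]
    simp only [cnt_cons]
    have h1 : ∀ v, (((if a = u ∧ c = v then 1 else 0) + cnt q.darts u v : ℕ) : ℤ) -
        (((if a = v ∧ c = u then 1 else 0) + cnt q.darts v u : ℕ) : ℤ) =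
        (if c = v then (if u = a then (1 : ℤ) else 0) else 0) -
        (if a = v then (if u = c then (1 : ℤ) else 0) else 0) +
        ((cnt q.darts u v : ℤ) - (cnt q.darts v u : ℤ)) := by
      intro v
      push_cast
      have e1 : (if a = u ∧ c = v then (1 : ℤ) else 0) = if c = v then (if u = a then (1 : ℤ) else 0) else 0 := by
        by_cases h1 : c = v <;> by_cases h2 : u = a
        · simp [h1, h2]
        · have : ¬ a = u := fun h => h2 h.symm
          simp [h1, h2, this]
        · simp [h1, h2]
        · simp [h1]
      have e2 : (if a = v ∧ c = u then (1 : ℤ) else 0) = if a = v then (if u = c then (1 : ℤ) else 0) else 0 := by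
        by_cases h1 : a = v <;> by_cases h2 : u = c
        · simp [h1, h2]
        · have : ¬ c = u := fun h => h2 h.symm
          simp [h1, h2, this]
        · simp [h1, h2]
        · simp [h1]
      rw [e1, e2]
      ring
    show ∑ v, ((((if a = u ∧ c = v then 1 else 0) + cnt q.darts u v : ℕ) : ℤ) -
        (((if a = v ∧ c = u then 1 else 0) + cnt q.darts v u : ℕ) : ℤ)) = _
    rw [Finset.sum_congr rfl (fun v _ => h1 v), Finset.sum_add_distrib, Finset.sum_sub_distrib, ih,
      Finset.sum_ite_eq, Finset.sum_ite_eq]
    simp

/-- antisymmetric, balanced, values in `{0, 1, -1}`, supported on the edges -/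
structure Good (G : SimpleGraph V) (g : V → V → ℤ) : Prop where
  anti : ∀ u v, g v u = - g u v
  vals : ∀ u v, g u v = 0 ∨ g u v = 1 ∨ g u v = -1
  supp : ∀ u v, g u v ≠ 0 → G.Adj u v
  bal : ∀ u, ∑ v, g u v = 0

lemma Good.pred {g : V → V → ℤ} (hg : Good G g) {a b : V} (h : g a b = 1) :
    ∃ w, g w a = 1 := by
  by_contra hcon
  push Not at hcon
  have h1 : ∀ v, 0 ≤ g a v := by
    intro v
    rcases hg.vals a v with h2 | h2 | h2
    · omega
    · omega
    · exact absurd (by rw [hg.anti a v, h2]; norm_num) (hcon v)
  have h2 : 0 < ∑ v, g a v := by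
    apply Finset.sum_pos' (fun v _ => h1 v)
    exact ⟨b, Finset.mem_univ _, by omega⟩
  rw [hg.bal] at h2
  exact lt_irrefl _ h2

/-- a directed cycle -/
lemma Good.exists_cycle {g : V → V → ℤ} (hg : Good G g) {a b : V} (hab : g a b = 1) :
    ∃ w, ∃ c : G.Walk w w, c.IsCycle ∧ ∀ d ∈ c.darts, g d.fst d.snd = 1 := by
  by_contra hcon
  push Not at hcon
  have key : ∀ n : ℕ, ∃ (x y : V) (p : G.Walk x y), p.IsPath ∧ (∀ d ∈ p.darts, g d.fst d.snd = 1) ∧
      p.length = n + 1 := by
    intro n
    induction n with
    | zero =>
      have hadj : G.Adj a b := hg.supp _ _ (by omega)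
      refine ⟨a, b, Walk.cons hadj Walk.nil, ?_, ?_, ?_⟩
      · rw [Walk.cons_isPath_iff]
        exact ⟨Walk.IsPath.nil, by simp [hadj.ne]⟩
      · intro d hd
        simp only [Walk.darts_cons, Walk.darts_nil, List.mem_singleton] at hd
        subst hd
        exact hab
      · simp
    | succ n ih =>
      obtain ⟨x, y, p, hp, hd, hl⟩ := ih
      have hx : ∃ z, g x z = 1 := by
        cases p with
        | nil => simp at hl
        | @cons _ z _ h q =>
          exact ⟨z, hd ⟨(x, z), h⟩ (by simp)⟩
      obtain ⟨z, hz⟩ := hx
      obtain ⟨w, hw⟩ := hg.pred hz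
      have hadj : G.Adj w x := hg.supp _ _ (by omega)
      by_cases hmem : w ∈ p.support
      · exfalso
        have hq : (p.takeUntil w hmem).IsPath := hp.takeUntil hmem
        have hqd : ∀ d ∈ (p.takeUntil w hmem).darts, g d.fst d.snd = 1 :=
          fun d h => hd d (p.darts_takeUntil_subset_darts hmem h)
        have hcyc : (Walk.cons hadj (p.takeUntil w hmem)).IsCycle := by
          rw [Walk.cons_isCycle_iff]
          refine ⟨hq, ?_⟩
          intro he
          rw [Walk.edges, List.mem_map] at he
          obtain ⟨d, hdm, hde⟩ := he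
          have h1 := hqd d hdm
          rw [dart_edge_eq_mk'_iff'] at hde
          rcases hde with ⟨h2, h3⟩ | ⟨h2, h3⟩
          · -- the dart ends at the start `x` of the path
            have h4 : (p.takeUntil w hmem).darts.map (·.snd) = (p.takeUntil w hmem).support.tail :=
              Walk.map_snd_darts _
            have h5 : x ∈ (p.takeUntil w hmem).support.tail := by
              rw [← h4]
              exact List.mem_map.2 ⟨d, hdm, h3⟩
            have h6 := hq.support_nodup
            rw [← Walk.cons_tail_support] at h6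
            rw [List.nodup_cons] at h6
            exact h6.1 h5
          · rw [h2, h3] at h1
            have h4 := hg.anti w x
            rw [h1, hw] at h4
            norm_num at h4
        obtain ⟨d, hd', hne⟩ := hcon w _ hcyc
        rw [Walk.darts_cons, List.mem_cons] at hd'
        rcases hd' with rfl | hd'
        · exact hne hw
        · exact hne (hqd d hd')
      · refine ⟨w, y, Walk.cons hadj p, ?_, ?_, ?_⟩
        · rw [Walk.cons_isPath_iff]
          exact ⟨hp, hmem⟩
        · intro d hd'
          rw [Walk.darts_cons, List.mem_cons] at hd'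
          rcases hd' with rfl | hd'
          · exact hw
          · exact hd d hd'
        · rw [Walk.length_cons, hl]
  obtain ⟨x, y, p, hp, _, hl⟩ := key (Fintype.card V)
  have := hp.length_lt
  omega

/-- decomposition of a balanced antisymmetric function into directed cycles -/
theorem decomp_dir : ∀ (n : ℕ) (g : V → V → ℤ), Good G g →
    (Finset.univ.filter fun q : V × V => g q.1 q.2 = 1).card = n →
    ∃ L : List (Σ v : V, G.Walk v v), (∀ c ∈ L, c.2.IsCycle) ∧
      ∀ u v, (L.map fun c => cnt c.2.darts u v).sum = if g u v = 1 then 1 else 0 := by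
  intro n
  induction n using Nat.strong_induction_on with
  | _ n ih =>
  intro g hg hn
  by_cases hE : ∃ a b, g a b = 1
  · obtain ⟨a, b, hab⟩ := hE
    obtain ⟨w, c, hc, hcd⟩ := hg.exists_cycle hab
    have hnd : c.darts.Nodup := by
      have h1 := hc.isTrail.edges_nodup
      exact List.Nodup.of_map _ h1
    have h01 : ∀ u v, cnt c.darts u v = 0 ∨ (cnt c.darts u v = 1 ∧ g u v = 1) := by
      intro u v
      by_cases h0 : cnt c.darts u v = 0
      · exact Or.inl h0
      · right
        have h1 := cnt_le_one hnd u v
        obtain ⟨d, hd, rfl, rfl⟩ := cnt_pos h0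
        exact ⟨by omega, hcd d hd⟩
    obtain ⟨g', hg'⟩ : ∃ g' : V → V → ℤ, ∀ u v,
        g' u v = g u v - ((cnt c.darts u v : ℤ) - (cnt c.darts v u : ℤ)) :=
      ⟨fun u v => g u v - ((cnt c.darts u v : ℤ) - (cnt c.darts v u : ℤ)), fun u v => rfl⟩
    have hcase : ∀ u v, (cnt c.darts u v = 0 ∧ g' u v = g u v) ∨
        (cnt c.darts u v = 1 ∧ g u v = 1 ∧ g' u v = 0) ∨
        (cnt c.darts u v = 0 ∧ g u v = -1 ∧ g' u v = 0) := by
      intro u v
      have ha := hg.anti u v
      have h5 := hg' u v
      rcases h01 u v with h1 | ⟨h1, h2⟩ <;> rcases h01 v u with h3 | ⟨h3, h4⟩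
      · left
        rw [h1, h3] at h5
        exact ⟨h1, by simpa using h5⟩
      · right; right
        rw [h1, h3] at h5
        refine ⟨h1, by omega, ?_⟩
        push_cast at h5
        omega
      · right; left
        rw [h1, h3] at h5
        refine ⟨h1, h2, ?_⟩
        push_cast at h5
        omega
      · omega
    have hgood : Good G g' := by
      constructor
      · intro u v
        rw [hg' u v, hg' v u, hg.anti u v]
        ring
      · intro u v
        have := hg.vals u v
        rcases hcase u v with ⟨_, h⟩ | ⟨_, _, h⟩ | ⟨_, _, h⟩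
        · rw [h]; exact this
        · exact Or.inl h
        · exact Or.inl h
      · intro u v h0
        rcases hcase u v with ⟨_, h⟩ | ⟨_, _, h⟩ | ⟨_, _, h⟩
        · exact hg.supp u v (by rwa [← h])
        · exact absurd h h0
        · exact absurd h h0
      · intro u
        have h1 := walk_bal c u
        rw [Finset.sum_congr rfl (fun v _ => hg' u v), Finset.sum_sub_distrib, hg.bal, h1]
        simp
    have hlt : (Finset.univ.filter fun q : V × V => g' q.1 q.2 = 1).card < n := by
      rw [← hn]
      apply Finset.card_lt_card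
      rw [Finset.ssubset_iff_of_subset]
      · have hne : c.darts ≠ [] := by
          intro h
          have := hc.three_le_length
          rw [← Walk.length_darts, h] at this
          simp at this
        obtain ⟨d, hd⟩ := List.exists_mem_of_ne_nil _ hne
        refine ⟨(d.fst, d.snd), ?_, ?_⟩
        · simp only [Finset.mem_filter, Finset.mem_univ, true_and]
          exact hcd d hd
        · simp only [Finset.mem_filter, Finset.mem_univ, true_and]
          have h1 := cnt_one hd
          rcases hcase d.fst d.snd with ⟨h, _⟩ | ⟨_, _, h⟩ | ⟨_, _, h⟩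
          · exact absurd h h1
          · rw [h]; norm_num
          · rw [h]; norm_num
      · intro q hq
        simp only [Finset.mem_filter, Finset.mem_univ, true_and] at hq ⊢
        rcases hcase q.1 q.2 with ⟨_, h⟩ | ⟨_, _, h⟩ | ⟨_, _, h⟩
        · rw [← h]; exact hq
        · omega
        · omega
    obtain ⟨L, hL1, hL2⟩ := ih _ hlt g' hgood rfl
    refine ⟨⟨w, c⟩ :: L, ?_, ?_⟩
    · intro d hd
      rw [List.mem_cons] at hd
      rcases hd with rfl | hd
      · exact hc
      · exact hL1 d hd
    · intro u v
      rw [List.map_cons, List.sum_cons, hL2 u v]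
      show cnt c.darts u v + _ = _
      rcases hcase u v with ⟨h1, h⟩ | ⟨h1, h2, h⟩ | ⟨h1, h2, h⟩
      · rw [h1, h]; simp
      · rw [h1, h, h2]; simp
      · rw [h1, h, h2]; norm_num
  · refine ⟨[], by simp, ?_⟩
    intro u v
    push Not at hE
    rw [if_neg (hE u v)]
    simp

end Pool.Agent.W401.OC
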