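import Pool.Agent.H126R2.CDC.Tab

/-! # Finite tables (helper401) -/

set_option autoImplicit false

namespace Pool.Agent.W401.OC

open Pool.Agent.H126R2.CDC

/-- `1` for different classes, `0` for equal classes -/
def ne01 (x y : Fin 3) : ℕ := if x = y then 0 else 1

theorem fin3_h02 : ∀ x y : Fin 3,
    (¬ ((x = 0 ∧ y ≠ 0) ∨ (x ≠ 0 ∧ y = 0)) ∧ ¬ ((x = 1 ∧ y ≠ 1) ∨ (x ≠ 1 ∧ y = 1)) ∧
      ¬ ((x = 2 ∧ y ≠ 2) ∨ (x ≠ 2 ∧ y = 2))) ∨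
    (¬ ((x = 0 ∧ y ≠ 0) ∨ (x ≠ 0 ∧ y = 0)) ∧ ((x = 1 ∧ y ≠ 1) ∨ (x ≠ 1 ∧ y = 1)) ∧
      ((x = 2 ∧ y ≠ 2) ∨ (x ≠ 2 ∧ y = 2))) ∨
    (((x = 0 ∧ y ≠ 0) ∨ (x ≠ 0 ∧ y = 0)) ∧ ¬ ((x = 1 ∧ y ≠ 1) ∨ (x ≠ 1 ∧ y = 1)) ∧
      ((x = 2 ∧ y ≠ 2) ∨ (x ≠ 2 ∧ y = 2))) ∨
    (((x = 0 ∧ y ≠ 0) ∨ (x ≠ 0 ∧ y = 0)) ∧ ((x = 1 ∧ y ≠ 1) ∨ (x ≠ 1 ∧ y = 1)) ∧
      ¬ ((x = 2 ∧ y ≠ 2) ∨ (x ≠ 2 ∧ y = 2))) := by
  intro x y
  fin_cases x <;> fin_cases y <;> simp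

theorem fin3_ne : ∀ x y : Fin 3, (((x = 0 ∧ y ≠ 0) ∨ (x ≠ 0 ∧ y = 0)) ∨
    ((x = 1 ∧ y ≠ 1) ∨ (x ≠ 1 ∧ y = 1)) ∨ ((x = 2 ∧ y ≠ 2) ∨ (x ≠ 2 ∧ y = 2))) ↔ ne01 x y = 1 := by
  decide

theorem ne01_cases : ∀ x y : Fin 3, ne01 x y = 0 ∨ ne01 x y = 1 := by
  decide

/-- numbering of the eight indices -/
def num (c : T3) : ℕ := (if c.1 then 1 else 0) + (if c.2.1 then 2 else 0) + (if c.2.2 then 4 else 0)

/-- the four parallel classes of the affine plane of order three, restricted to eight points -/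
def K3 : List (T3 → Fin 3) :=
  [fun c => ⟨num c % 3, Nat.mod_lt _ (by norm_num)⟩,
   fun c => ⟨(num c / 3) % 3, Nat.mod_lt _ (by norm_num)⟩,
   fun c => ⟨(num c % 3 + num c / 3) % 3, Nat.mod_lt _ (by norm_num)⟩,
   fun c => ⟨(num c % 3 + 2 * (num c / 3)) % 3, Nat.mod_lt _ (by norm_num)⟩]

/-- the eight singletons -/
def K2 : List (T3 → Fin 3) :=
  [fun c => if num c = 0 then 0 else 1, fun c => if num c = 1 then 0 else 1,
   fun c => if num c = 2 then 0 else 1, fun c => if num c = 3 then 0 else 1,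
   fun c => if num c = 4 then 0 else 1, fun c => if num c = 5 then 0 else 1,
   fun c => if num c = 6 then 0 else 1, fun c => if num c = 7 then 0 else 1]

theorem K3_sum : ∀ a b : T3, a ≠ b → (K3.map fun κ => ne01 (κ a) (κ b)).sum = 3 := by
  decide

theorem K2_sum : ∀ a b : T3, a ≠ b → (K2.map fun κ => ne01 (κ a) (κ b)).sum = 2 := by
  decide

/-- for every `k ≥ 2` there is a list of three-class colourings of the eight indices such that every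
pair of indices is separated by exactly `k` of them -/
theorem exists_cols : ∀ k : ℕ, 2 ≤ k → ∃ K : List (T3 → Fin 3),
    ∀ a b : T3, a ≠ b → (K.map fun κ => ne01 (κ a) (κ b)).sum = k := by
  intro k
  induction k using Nat.strong_induction_on with
  | _ k ih =>
  intro hk
  rcases Nat.lt_or_ge k 4 with h4 | h4
  · rcases (by omega : k = 2 ∨ k = 3) with rfl | rfl
    · exact ⟨K2, K2_sum⟩
    · exact ⟨K3, K3_sum⟩
  · obtain ⟨K, hK⟩ := ih (k - 2) (by omega) (by omega)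
    refine ⟨K2 ++ K, fun a b hab => ?_⟩
    rw [List.map_append, List.sum_append, K2_sum a b hab, hK a b hab]
    omega

end Pool.Agent.W401.OC
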