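import Pool.Agent.W401.OC.Blk
import Pool.Agent.W401.OC.Tab
import Pool.Agent.H126R2.CDC.Colour

/-! # Eight even subgraphs and three-class colourings of their index set (helper401) -/

set_option autoImplicit false

open scoped Classical

namespace Pool.Agent.W401.OC

open SimpleGraph Pool.Agent.H126R2.CDC
open Pool.Agent.Helper879.ECD (cn F2)

variable {V : Type} [Fintype V]

/-- the eight even subgraphs of the circuit double cover theorem, for simple graphs -/
theorem eight (G : SimpleGraph V)
    (h : ∀ u v : V, G.Adj u v → (G.deleteEdges {s(u, v)}).Reachable u v) :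
    ∃ S : Sym2 V → Finset T3, (∀ e ∈ G.edgeSet, (S e).card = 2) ∧
      ∀ (c : T3) (w : V), Even ((Finset.univ.filter fun x => G.Adj w x ∧ c ∈ S s(w, x)).card) := by
  have h0 : ∀ e : G.edgeSet, ∃ p : V × V, (e : Sym2 V) = s(p.1, p.2) := by
    rintro ⟨e, he⟩
    induction e using Sym2.ind with
    | _ x y => exact ⟨(x, y), rfl⟩
  choose p hp using h0
  obtain ⟨v, hv⟩ : ∃ v : G.edgeSet × Bool → V, ∀ e : G.edgeSet, (e : Sym2 V) = s(v (e, false), v (e, true)) :=
    ⟨fun h => if h.2 then (p h.1).2 else (p h.1).1, fun e => by simpa using hp e⟩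
  have h1 : ∀ X : Finset V,
      cn (fun e => v (e, false)) (fun e => v (e, true)) Finset.univ X ≠ 1 := by
    intro X hX
    unfold cn at hX
    obtain ⟨e0, he0⟩ := Finset.card_eq_one.1 hX
    have hcr : ∀ e : G.edgeSet, ¬ (v (e, false) ∈ X ↔ v (e, true) ∈ X) ↔ e = e0 := by
      intro e
      have : e ∈ Finset.univ.filter (fun e : G.edgeSet => ¬ (v (e, false) ∈ X ↔ v (e, true) ∈ X)) ↔
          e ∈ ({e0} : Finset G.edgeSet) := by rw [he0]
      simpa using this
    have hkey : ∀ x y : V, x ∈ X → y ∉ X → s(x, y) = (e0 : Sym2 V) → False := by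
      intro x y hx hy hxy
      have hxy' : G.Adj x y := by
        have := e0.2
        rw [← hxy] at this
        exact this
      obtain ⟨q⟩ := h x y hxy'
      obtain ⟨d, _, hd1, hd2⟩ := q.exists_boundary_dart (X : Set V) hx hy
      have hda := d.adj
      rw [deleteEdges_adj] at hda
      have h2 : s(d.fst, d.snd) ∈ G.edgeSet := hda.1
      have h3 := hv ⟨s(d.fst, d.snd), h2⟩
      have h4 : ¬ (v (⟨s(d.fst, d.snd), h2⟩, false) ∈ X ↔ v (⟨s(d.fst, d.snd), h2⟩, true) ∈ X) := by
        have h5 : s(d.fst, d.snd) = s(v (⟨s(d.fst, d.snd), h2⟩, false), v (⟨s(d.fst, d.snd), h2⟩, true)) := h3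
        rw [Sym2.eq_iff] at h5
        rcases h5 with ⟨h6, h7⟩ | ⟨h6, h7⟩
        · rw [← h6, ← h7]
          intro h8
          exact hd2 (h8.1 hd1)
        · rw [← h6, ← h7]
          intro h8
          exact hd2 (h8.2 hd1)
      have h5 := (hcr _).1 h4
      apply hda.2
      rw [Set.mem_singleton_iff]
      exact (congrArg Subtype.val h5).trans hxy.symm
    have h6 := (hcr e0).2 rfl
    by_cases h7 : v (e0, false) ∈ X
    · have h8 : v (e0, true) ∉ X := fun h8 => h6 ⟨fun _ => h8, fun _ => h7⟩
      exact hkey _ _ h7 h8 (hv e0).symm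
    · have h8 : v (e0, true) ∈ X := by
        by_contra h8
        exact h6 ⟨fun h => absurd h h7, fun h => absurd h h8⟩
      exact hkey _ _ h8 h7 (by rw [Sym2.eq_swap]; exact (hv e0).symm)
  obtain ⟨S, hS1, hS2⟩ := exists_double_cover v h1
  refine ⟨fun e => if he : e ∈ G.edgeSet then S ⟨e, he⟩ else ∅, ?_, ?_⟩
  · intro e he
    beta_reduce
    rw [dif_pos he]
    exact hS1 _
  · intro c w
    have h2 := hS2 c w
    set F : Finset (G.edgeSet × Bool) := Finset.univ.filter fun h => v h = w ∧ c ∈ S h.1 with hF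
    have h3 : ((F.card : ℕ) : F2) = 0 := by
      rw [← h2, hF, Finset.card_filter]
      push_cast
      refine Finset.sum_congr rfl fun h _ => ?_
      by_cases h4 : v h = w <;> by_cases h5 : c ∈ S h.1 <;> simp [h4, h5]
    have h4 : Even F.card := (ZMod.natCast_eq_zero_iff_even).1 h3
    have hsym : ∀ h : G.edgeSet × Bool, (h.1 : Sym2 V) = s(v h, v (h.1, !h.2)) := by
      rintro ⟨e, b⟩
      cases b
      · exact hv e
      · rw [Sym2.eq_swap]; exact hv e
    have hmem : ∀ x, (G.Adj w x ∧ c ∈ (if he : s(w, x) ∈ G.edgeSet then S ⟨s(w, x), he⟩ else ∅)) ↔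
        ∃ hxy : G.Adj w x, c ∈ S ⟨s(w, x), hxy⟩ := by
      intro x
      constructor
      · rintro ⟨h5, h6⟩
        rw [dif_pos (show s(w, x) ∈ G.edgeSet from h5)] at h6
        exact ⟨h5, h6⟩
      · rintro ⟨h5, h6⟩
        refine ⟨h5, ?_⟩
        rw [dif_pos (show s(w, x) ∈ G.edgeSet from h5)]
        exact h6
    have h5 : (Finset.univ.filter fun x => G.Adj w x ∧
        c ∈ (if he : s(w, x) ∈ G.edgeSet then S ⟨s(w, x), he⟩ else ∅)) =
        F.image (fun h : G.edgeSet × Bool => v (h.1, !h.2)) := by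
      ext x
      rw [Finset.mem_filter, hmem, Finset.mem_image]
      simp only [Finset.mem_univ, true_and]
      constructor
      · rintro ⟨hxy, hc⟩
        have h6 : s(w, x) = s(v (⟨s(w, x), hxy⟩, false), v (⟨s(w, x), hxy⟩, true)) := hv ⟨s(w, x), hxy⟩
        rw [Sym2.eq_iff] at h6
        rcases h6 with ⟨h7, h8⟩ | ⟨h7, h8⟩
        · refine ⟨(⟨s(w, x), hxy⟩, false), ?_, ?_⟩
          · rw [hF, Finset.mem_filter]
            exact ⟨Finset.mem_univ _, h7.symm, hc⟩
          · exact h8.symm
        · refine ⟨(⟨s(w, x), hxy⟩, true), ?_, ?_⟩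
          · rw [hF, Finset.mem_filter]
            exact ⟨Finset.mem_univ _, h7.symm, hc⟩
          · exact h8.symm
      · rintro ⟨h, hh, rfl⟩
        rw [hF, Finset.mem_filter] at hh
        obtain ⟨_, hw, hc⟩ := hh
        have h6 := hsym h
        rw [hw] at h6
        have hxy : G.Adj w (v (h.1, !h.2)) := by
          have := h.1.2
          rw [h6] at this
          exact this
        refine ⟨hxy, ?_⟩
        have : (⟨s(w, v (h.1, !h.2)), hxy⟩ : G.edgeSet) = h.1 := Subtype.ext h6.symm
        rw [this]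
        exact hc
    have h6 : Set.InjOn (fun h : G.edgeSet × Bool => v (h.1, !h.2)) (F : Set (G.edgeSet × Bool)) := by
      intro a ha b hb hab
      rw [hF, Finset.coe_filter] at ha hb
      have h7 := hsym a
      have h8 := hsym b
      have h9 : v (a.1, !a.2) = v (b.1, !b.2) := hab
      rw [ha.2.1, h9] at h7
      rw [hb.2.1] at h8
      have h10 : a.1 = b.1 := Subtype.ext (h7.trans h8.symm)
      have h11 : a.2 = b.2 := by
        by_contra hne
        have h12 : b = (a.1, !a.2) := by
          apply Prod.ext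
          · exact h10.symm
          · have hbool : ∀ p q : Bool, ¬ p = q → q = !p := by decide
            exact hbool _ _ hne
        have h15 : v a = v b := ha.2.1.trans hb.2.1.symm
        rw [h12] at h15
        have h17 := hsym a
        rw [← h15] at h17
        have h18 : s(v a, v a) ∈ G.edgeSet := by rw [← h17]; exact a.1.2
        exact G.loopless.irrefl _ h18
      exact Prod.ext h10 h11
    show Even ((Finset.univ.filter fun x => G.Adj w x ∧
        c ∈ (if he : s(w, x) ∈ G.edgeSet then S ⟨s(w, x), he⟩ else ∅)).card)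
    rw [h5, Finset.card_image_of_injOn h6]
    exact h4

/-- the part of the graph carried by an odd number of the even subgraphs in `W` -/
def part (G : SimpleGraph V) (S : Sym2 V → Finset T3) (W : Finset T3) : SimpleGraph V where
  Adj x y := G.Adj x y ∧ Odd ((S s(x, y) ∩ W).card)
  symm := ⟨by
    rintro x y ⟨h1, h2⟩
    refine ⟨h1.symm, ?_⟩
    rw [Sym2.eq_swap]
    exact h2⟩
  loopless := ⟨by
    rintro x ⟨h1, _⟩
    exact G.loopless.irrefl x h1⟩

lemma part_even (G : SimpleGraph V) (S : Sym2 V → Finset T3) (W : Finset T3)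
    (hS : ∀ (c : T3) (w : V), Even ((Finset.univ.filter fun x => G.Adj w x ∧ c ∈ S s(w, x)).card))
    (w : V) : Even (((part G S W).neighborSet w).ncard) := by
  have h1 : (part G S W).neighborSet w =
      (((Finset.univ.filter fun x => G.Adj w x).filter fun x => Odd ((S s(w, x) ∩ W).card) : Finset V) : Set V) := by
    ext x
    simp only [mem_neighborSet, Finset.coe_filter, Finset.mem_filter, Finset.mem_univ, true_and]
    exact Iff.rfl
  rw [h1, Set.ncard_coe_finset, ← Finset.even_sum_iff_even_card_odd]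
  have h2 : ∑ x ∈ Finset.univ.filter (fun x => G.Adj w x), (S s(w, x) ∩ W).card =
      ∑ c ∈ W, (Finset.univ.filter fun x => G.Adj w x ∧ c ∈ S s(w, x)).card := by
    have h3 : ∀ x, (S s(w, x) ∩ W).card = ∑ c ∈ W, if c ∈ S s(w, x) then 1 else 0 := by
      intro x
      rw [← Finset.card_filter]
      congr 1
      ext c
      simp only [Finset.mem_inter, Finset.mem_filter]
      tauto
    rw [Finset.sum_congr rfl (fun x _ => h3 x), Finset.sum_comm]
    refine Finset.sum_congr rfl fun c _ => ?_
    rw [← Finset.card_filter, Finset.filter_filter]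
  rw [h2]
  exact Finset.even_sum _ (fun c _ => hS c w)

/-- one colouring of the eight indices by three classes -/
theorem one_col (G : SimpleGraph V) (S : Sym2 V → Finset T3)
    (hS1 : ∀ e ∈ G.edgeSet, (S e).card = 2)
    (hS : ∀ (c : T3) (w : V), Even ((Finset.univ.filter fun x => G.Adj w x ∧ c ∈ S s(w, x)).card))
    (κ : T3 → Fin 3) :
    ∃ L : List (Σ v : V, G.Walk v v), (∀ c ∈ L, c.2.IsCycle) ∧
      ∀ u v, ∀ a b : T3, G.Adj u v → a ≠ b → S s(u, v) = {a, b} →
        (L.map fun c => cnt c.2.darts u v).sum = ne01 (κ a) (κ b) := by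
  have key : ∀ u v, ∀ a b : T3, G.Adj u v → a ≠ b → S s(u, v) = {a, b} → ∀ i : Fin 3,
      ((part G S (Finset.univ.filter fun c => κ c = i)).Adj u v ↔
        ((κ a = i ∧ κ b ≠ i) ∨ (κ a ≠ i ∧ κ b = i))) := by
    intro u v a b huv hab hs i
    show (G.Adj u v ∧ Odd ((S s(u, v) ∩ _).card)) ↔ _
    rw [hs]
    have h1 : (({a, b} : Finset T3) ∩ (Finset.univ.filter fun c => κ c = i)) =
        ({a, b} : Finset T3).filter fun c => κ c = i := by
      ext c
      simp only [Finset.mem_inter, Finset.mem_filter, Finset.mem_univ, true_and]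
    rw [h1, Finset.card_filter, Finset.sum_pair hab]
    by_cases h2 : κ a = i <;> by_cases h3 : κ b = i <;> simp [h2, h3, huv]
  obtain ⟨L, hL1, hL2⟩ := block (G := G) (fun i => part G S (Finset.univ.filter fun c => κ c = i))
    (fun i x y h => h.1) (fun i v => part_even G S _ hS v) (by
      intro u v
      by_cases huv : G.Adj u v
      · obtain ⟨a, b, hab, hs⟩ := Finset.card_eq_two.1 (hS1 s(u, v) huv)
        have k0 := key u v a b huv hab hs 0
        have k1 := key u v a b huv hab hs 1
        have k2 := key u v a b huv hab hs 2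
        rw [k0, k1, k2]
        exact fin3_h02 (κ a) (κ b)
      · left
        exact ⟨fun h => huv h.1, fun h => huv h.1, fun h => huv h.1⟩)
  refine ⟨L, hL1, ?_⟩
  intro u v a b huv hab hs
  rw [hL2 u v]
  have k0 := key u v a b huv hab hs 0
  have k1 := key u v a b huv hab hs 1
  have k2 := key u v a b huv hab hs 2
  beta_reduce
  rw [k0, k1, k2]
  have h3 := fin3_ne (κ a) (κ b)
  rcases ne01_cases (κ a) (κ b) with h4 | h4
  · rw [if_neg (fun h5 => by rw [h3.1 h5] at h4; exact absurd h4 (by norm_num)), h4]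
  · rw [if_pos (h3.2 h4), h4]

/-- a list of colourings -/
theorem many_col (G : SimpleGraph V) (S : Sym2 V → Finset T3)
    (hS1 : ∀ e ∈ G.edgeSet, (S e).card = 2)
    (hS : ∀ (c : T3) (w : V), Even ((Finset.univ.filter fun x => G.Adj w x ∧ c ∈ S s(w, x)).card))
    (K : List (T3 → Fin 3)) :
    ∃ L : List (Σ v : V, G.Walk v v), (∀ c ∈ L, c.2.IsCycle) ∧
      ∀ u v, ∀ a b : T3, G.Adj u v → a ≠ b → S s(u, v) = {a, b} →
        (L.map fun c => cnt c.2.darts u v).sum = (K.map fun κ => ne01 (κ a) (κ b)).sum := by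
  induction K with
  | nil => exact ⟨[], by simp, by simp⟩
  | cons κ K ih =>
    obtain ⟨L, hL1, hL2⟩ := ih
    obtain ⟨M, hM1, hM2⟩ := one_col G S hS1 hS κ
    refine ⟨M ++ L, ?_, ?_⟩
    · intro c hc
      rw [List.mem_append] at hc
      exact hc.elim (hM1 c) (hL1 c)
    · intro u v a b huv hab hs
      rw [List.map_append, List.sum_append, hM2 u v a b huv hab hs, hL2 u v a b huv hab hs,
        List.map_cons, List.sum_cons]

end Pool.Agent.W401.OC
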